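import Pool.Agent.X19.SS.Stm2

set_option autoImplicit false

open MeasureTheory ProbabilityTheory Filter Topology
open scoped ENNReal Matrix

namespace Pool.Agent.X319.SS

open Pool.Agent.X19.SS

lemma matA_mul {K : Type} [RCLike K] {r n d p : ℕ} (hr : r ≤ d) (G : Fin r → Fin n → K)
    (X : Matrix (Fin d) (Fin p) K) (i : Fin n) (k : Fin p) :
    (matA d G * X) i k = ∑ j : Fin r, G j i * X (Fin.castLE hr j) k := by
  rw [Matrix.mul_apply]
  refine (Finset.sum_of_injOn (Fin.castLE hr) ?_ ?_ ?_ ?_).symm
  · intro a _ b _ h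
    exact Fin.castLE_injective hr h
  · intro a _; exact Finset.mem_coe.2 (Finset.mem_univ _)
  · intro j _ hj
    have h : ¬ j.val < r := by
      intro h
      apply hj
      exact ⟨⟨j.val, h⟩, Finset.mem_coe.2 (Finset.mem_univ _), Fin.ext rfl⟩
    simp [matA, h]
  · intro j _
    simp [matA]

theorem t_F3b : S_F3b := by
  classical
  intro K _ r n d p G y hr hp
  refine le_iInf fun v => ?_
  let X : Matrix (Fin d) (Fin p) K := Matrix.of fun j k =>
    if k.val = 0 then (if h : j.val < r then - v ⟨j.val, h⟩ else 0) else 0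
  refine iInf_le_of_le X ?_
  have hent : ∀ i k, (matB p y - matA d G * X) i k =
      if k.val = 0 then (y + ∑ k, v k • G k) i else 0 := by
    intro i k
    rw [Matrix.sub_apply, matA_mul hr]
    by_cases hk : k.val = 0
    · simp only [matB, Matrix.of_apply, hk, if_true, X, Fin.val_castLE, Fin.is_lt, dite_true,
        Fin.eta, Pi.add_apply, Finset.sum_apply, Pi.smul_apply, smul_eq_mul]
      rw [sub_eq_add_neg, ← Finset.sum_neg_distrib]
      congr 1
      refine Finset.sum_congr rfl fun j _ => ?_
      ring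
    · simp [matB, X, hk]
  rw [frob2, nsq]
  refine Finset.sum_le_sum fun i _ => ?_
  rw [Finset.sum_eq_single (⟨0, hp⟩ : Fin p)]
  · rw [hent]; simp
  · intro k _ hk
    rw [hent, if_neg]
    · simp
    · intro h
      exact hk (Fin.ext h)
  · intro h; exact absurd (Finset.mem_univ _) h

theorem t_F3c : S_F3c := by
  intro K _ r n d p G y hr hp X
  rw [nsq, frob2]
  refine Finset.sum_le_sum fun i _ => ?_
  refine le_trans (le_of_eq ?_) (Finset.single_le_sum (f := fun k => ‖(matB p y - matA d G * X) i k‖ₑ ^ 2)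
    (fun _ _ => zero_le) (Finset.mem_univ (⟨0, hp⟩ : Fin p)))
  congr 2
  rw [Matrix.sub_apply, matA_mul hr]
  simp only [matB, Matrix.of_apply, if_true, Pi.sub_apply, Finset.sum_apply, Pi.smul_apply,
    smul_eq_mul]
  congr 1
  refine Finset.sum_congr rfl fun j _ => ?_
  ring

theorem t_F3d : S_F3d := by
  intro K _ r n l d p G y Om
  constructor
  · ext i j
    rw [Matrix.mul_apply]
    by_cases h : j.val < r
    · simp [matA, h, Matrix.mulVec, dotProduct]
    · simp [matA, h]
  · ext i j
    rw [Matrix.mul_apply]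
    by_cases h : j.val = 0
    · simp [matB, h, Matrix.mulVec, dotProduct]
    · simp [matB, h]

lemma matA_col {K : Type} [RCLike K] {r n d : ℕ} (G : Fin r → Fin n → K) (j : Fin d) :
    (matA d G)ᵀ j = if h : j.val < r then G ⟨j.val, h⟩ else 0 := by
  ext i
  by_cases h : j.val < r <;> simp [matA, h, Matrix.transpose_apply]

theorem t_F3a : S_F3a := by
  intro K _ r n d G hr hG
  rw [Matrix.rank_eq_finrank_span_cols]
  have hspan : Submodule.span K (Set.range (matA d G)ᵀ) = Submodule.span K (Set.range G) := by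
    apply le_antisymm
    · rw [Submodule.span_le]
      rintro _ ⟨j, rfl⟩
      rw [matA_col]
      split_ifs with h
      · exact Submodule.subset_span ⟨_, rfl⟩
      · exact Submodule.zero_mem _
    · rw [Submodule.span_le]
      rintro _ ⟨j, rfl⟩
      refine Submodule.subset_span ⟨Fin.castLE hr j, ?_⟩
      rw [matA_col]
      simp
  change Module.finrank K (Submodule.span K (Set.range (matA d G)ᵀ)) = r
  rw [hspan, finrank_span_eq_card hG, Fintype.card_fin]

theorem t_F3e : S_F3e := by
  intro K _ r n d p M hp hM x X h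
  rw [linearIndependent_finSucc] at hM
  apply hM.2
  have hcol : (∑ k : Fin r, x k • M k.succ + M 0) ∈ Submodule.span K (Set.range (Fin.tail M)) := by
    have h1 : (∑ k : Fin r, x k • M k.succ + M 0) =
        ∑ j : Fin d, X j ⟨0, hp⟩ • (matA d (fun j : Fin r => M j.succ))ᵀ j := by
      funext i
      have h2 := congrFun (congrFun h i) ⟨0, hp⟩
      rw [Matrix.mul_apply] at h2
      simp only [matB, Matrix.of_apply, if_true] at h2
      rw [← h2, Finset.sum_apply]
      refine Finset.sum_congr rfl fun j _ => ?_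
      simp only [Pi.smul_apply, smul_eq_mul, Matrix.transpose_apply]
      ring
    rw [h1]
    refine Submodule.sum_mem _ fun j _ => Submodule.smul_mem _ _ ?_
    rw [matA_col]
    split_ifs with h3
    · exact Submodule.subset_span ⟨⟨j.val, h3⟩, rfl⟩
    · exact Submodule.zero_mem _
  have h4 : M 0 = (∑ k : Fin r, x k • M k.succ + M 0) - ∑ k : Fin r, x k • M k.succ := by abel
  rw [h4]
  refine Submodule.sub_mem _ hcol (Submodule.sum_mem _ fun k _ => Submodule.smul_mem _ _ ?_)
  exact Submodule.subset_span ⟨k, rfl⟩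

lemma frob2_eq {K : Type} [RCLike K] {m k : ℕ} (M : Matrix (Fin m) (Fin k) K) :
    frob2 M = ENNReal.ofReal (∑ i, ∑ j, ‖M i j‖ ^ 2) := by
  rw [frob2, ENNReal.ofReal_sum_of_nonneg (fun i _ => Finset.sum_nonneg fun j _ => sq_nonneg _)]
  refine Finset.sum_congr rfl fun i _ => ?_
  rw [ENNReal.ofReal_sum_of_nonneg (fun j _ => sq_nonneg _)]
  refine Finset.sum_congr rfl fun j _ => ?_
  rw [ENNReal.ofReal_pow (norm_nonneg _), ofReal_norm]

theorem t_P : S_P := by
  intro K _ n d p A B P h1 h3
  apply le_antisymm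
  · refine iInf_le_of_le (P * B) ?_
    rw [Matrix.mul_assoc]
  · refine le_iInf fun X => ?_
    rw [frob2_eq, frob2_eq]
    apply ENNReal.ofReal_le_ofReal
    set M := B - A * P * B with hM
    set N := A * (P * B - X) with hN
    have hsum : B - A * X = M + N := by
      rw [hM, hN, Matrix.mul_sub, Matrix.mul_assoc]; abel
    have horth : Mᴴ * N = 0 := by
      rw [hM, hN, Matrix.conjTranspose_sub, Matrix.conjTranspose_mul, h3, Matrix.sub_mul,
        ← Matrix.mul_assoc, ← Matrix.mul_assoc, Matrix.mul_assoc Bᴴ (A * P) A, h1, sub_self]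
    have hre : ∑ i, ∑ j, RCLike.re (star (M i j) * N i j) = 0 := by
      rw [Finset.sum_comm]
      refine Finset.sum_eq_zero fun j _ => ?_
      have h2 := congrFun (congrFun horth j) j
      rw [Matrix.mul_apply] at h2
      simp only [Matrix.conjTranspose_apply, Matrix.zero_apply] at h2
      rw [← map_sum, h2, map_zero]
    rw [hsum]
    have hpt : ∀ i j, ‖(M + N) i j‖ ^ 2 = ‖M i j‖ ^ 2 + 2 * RCLike.re (star (M i j) * N i j) +
        ‖N i j‖ ^ 2 := by
      intro i j
      rw [Matrix.add_apply, @norm_add_sq K K _ _ _ (M i j) (N i j)]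
      congr 3
      simp [RCLike.inner_apply, mul_comm]
    simp only [hpt, Finset.sum_add_distrib, ← Finset.mul_sum]
    rw [hre, mul_zero, add_zero]
    have h5 : 0 ≤ ∑ i, ∑ j, ‖N i j‖ ^ 2 :=
      Finset.sum_nonneg fun i _ => Finset.sum_nonneg fun j _ => sq_nonneg _
    linarith

end Pool.Agent.X319.SS
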